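import Mathlib

namespace Pool.Agent.Results.MP_01ee34_gt.Bogatyi

/-- Euclidean space of dimension `n` -/
abbrev E (n : ℕ) : Type := EuclideanSpace ℝ (Fin n)

/-- `F` contains the image of `A` under some rotation, i.e. an element of `SO(n)` -/
def ContainsCopy {n : ℕ} (F A : Set (E n)) : Prop :=
  ∃ ρ : E n ≃ₗᵢ[ℝ] E n, LinearMap.det (ρ.toLinearEquiv : E n →ₗ[ℝ] E n) = 1 ∧ ρ '' A ⊆ F

theorem result : ¬ ∀ (d m : ℕ), 1 ≤ d → 1 ≤ m → ∀ F : Fin m → Set (E (d + 1)),
    (∀ i, IsClosed (F i)) → (⋃ i, F i) = Metric.sphere 0 1 →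
    ∃ i, ∀ A : Finset (E (d + 1)), (A : Set (E (d + 1))) ⊆ Metric.sphere 0 1 →
      (A.card : ℤ) = (d : ℤ) - m + 3 → ContainsCopy (F i) A := by
  classical
  intro h
  have c2 : Continuous fun x : E 3 => x 2 ^ 2 := by fun_prop
  obtain ⟨i, hi⟩ := h 2 2 (by norm_num) (by norm_num)
    ![Metric.sphere 0 1 ∩ {x | 3 / 10 ≤ x 2 ^ 2}, Metric.sphere 0 1 ∩ {x | x 2 ^ 2 ≤ 3 / 10}]
    (fun i => by
      fin_cases i
      · exact Metric.isClosed_sphere.inter (isClosed_le continuous_const c2)
      · exact Metric.isClosed_sphere.inter (isClosed_le c2 continuous_const))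
    (by
      ext x
      simp only [Set.mem_iUnion, Fin.exists_fin_two, Matrix.cons_val_zero, Matrix.cons_val_one,
        Set.mem_inter_iff, Set.mem_ofPred_eq]
      have := le_total (3 / 10) (x 2 ^ 2)
      tauto)
  fin_cases i
  · have s3 : Real.sqrt 3 * Real.sqrt 3 = 3 := Real.mul_self_sqrt (by norm_num)
    have s0 : 0 < Real.sqrt 3 := by positivity
    let a : E 3 := !₂[1, 0, 0]
    let b : E 3 := !₂[-1 / 2, Real.sqrt 3 / 2, 0]
    let c : E 3 := !₂[-1 / 2, -(Real.sqrt 3 / 2), 0]
    have hab : a ≠ b := fun e => by have := congrArg (· 0) e; simp [a, b] at this; linarith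
    have hac : a ≠ c := fun e => by have := congrArg (· 0) e; simp [a, c] at this; linarith
    have hbc : b ≠ c := fun e => by have := congrArg (· 1) e; simp [b, c] at this; linarith
    have hs : a + b + c = 0 := by
      ext j; fin_cases j <;> simp [a, b, c]; norm_num
    obtain ⟨ρ, -, hρ⟩ := hi {a, b, c} (by
      intro x hx
      simp only [Finset.coe_insert, Finset.coe_singleton, Set.mem_insert_iff,
        Set.mem_singleton_iff] at hx
      rw [mem_sphere_zero_iff_norm, EuclideanSpace.norm_eq, Real.sqrt_eq_one]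
      rcases hx with rfl | rfl | rfl <;> simp [Fin.sum_univ_three, a, b, c] <;> nlinarith)
      (by rw [Finset.card_eq_three.2 ⟨a, b, c, hab, hac, hbc, rfl⟩]; norm_num)
    have k : ∀ x ∈ ({a, b, c} : Finset (E 3)), 3 / 10 ≤ (ρ x) 2 ^ 2 ∧ (ρ x) 2 ^ 2 ≤ 1 := by
      intro x hx
      obtain ⟨h1, h2⟩ := hρ ⟨x, hx, rfl⟩
      refine ⟨h2, ?_⟩
      rw [mem_sphere_zero_iff_norm, EuclideanSpace.norm_eq, Real.sqrt_eq_one,
        Fin.sum_univ_three] at h1
      simp only [Real.norm_eq_abs, sq_abs] at h1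
      nlinarith [sq_nonneg (ρ x 0), sq_nonneg (ρ x 1)]
    have ka := k a (by simp)
    have kb := k b (by simp)
    have kc := k c (by simp)
    have h0 : ρ a 2 + ρ b 2 + ρ c 2 = 0 := by
      have := congrArg (fun x => ρ x 2) hs
      simpa using this
    generalize ρ a 2 = x at *
    generalize ρ b 2 = y at *
    generalize ρ c 2 = z at *
    have key : ∀ x y : ℝ, 3 / 10 ≤ x ^ 2 → 3 / 10 ≤ y ^ 2 → 0 ≤ x * y → 1 < (x + y) ^ 2 := by
      intro x y hx hy hxy
      have : 3 / 10 ≤ x * y := by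
        by_contra hc
        push Not at hc
        nlinarith
      nlinarith
    by_cases h1 : 0 ≤ x * y
    · have := key x y ka.1 kb.1 h1
      have e : z = -(x + y) := by linarith
      rw [e] at kc; nlinarith
    by_cases h2 : 0 ≤ x * z
    · have := key x z ka.1 kc.1 h2
      have e : y = -(x + z) := by linarith
      rw [e] at kb; nlinarith
    have h3 : 0 ≤ y * z := by
      push Not at h1 h2
      have := mul_pos_of_neg_of_neg h1 h2
      by_contra hc
      push Not at hc
      nlinarith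
    have := key y z kb.1 kc.1 h3
    have e : x = -(y + z) := by linarith
    rw [e] at ka; nlinarith
  · let e : Fin 3 → E 3 := fun j => EuclideanSpace.single j 1
    have hinj : Function.Injective e := fun j k hjk => by
      by_contra hne
      have := congrArg (· j) hjk
      simp [e, hne] at this
    obtain ⟨ρ, -, hρ⟩ := hi (Finset.univ.image e) (by
      intro x hx
      obtain ⟨j, -, rfl⟩ := Finset.mem_image.1 hx
      simp [e]) (by rw [Finset.card_image_of_injective _ hinj]; simp)
    have k : ∀ j, (ρ (e j)) 2 ^ 2 ≤ 3 / 10 := fun j =>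
      (hρ ⟨e j, Finset.mem_image_of_mem e (Finset.mem_univ j), rfl⟩).2
    have k2 : ∀ j, (ρ (e j)) 2 = (ρ.symm (e 2)) j := by
      intro j
      have := ρ.inner_map_map (ρ.symm (e 2)) (e j)
      simpa [e, EuclideanSpace.inner_single_left, EuclideanSpace.inner_single_right] using this
    have h1 : ‖ρ.symm (e 2)‖ = 1 := by simp [e]
    rw [EuclideanSpace.norm_eq, Real.sqrt_eq_one, Fin.sum_univ_three] at h1
    simp only [Real.norm_eq_abs, sq_abs, ← k2] at h1
    linarith [k 0, k 1, k 2]

end Pool.Agent.Results.MP_01ee34_gt.Bogatyi
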